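import Pool.Agent.W886.CS.Stm1
import Pool.Agent.H620R2.Gauge2.Trans

/-!
# `P^NP` relative to an oracle is contained in polynomial space

More generally an algorithm which asks an oracle in `PSPACE` relative to `A` is simulated by a
polynomial-space algorithm with oracle `A`. The memory contains the answers received so far and the
memory of the algorithm for the oracle.
-/

set_option autoImplicit false

namespace Pool.Agent.W975.CS

open Pool.Agent.NPC Pool.Agent.H622R2 Pool.Agent.H620R2.Gauge

/-- the answers received so far and the memory of the inner algorithm -/
def dst (s : List Bool) : List Bool × List Bool :=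
  (unbits (List Bool × List Bool) s).getD ([], [])

theorem dst_nil : dst [] = ([], []) := rfl

theorem dst_bits (t : List Bool × List Bool) : dst (bits t) = t := by
  unfold dst
  rw [unbits_bits]
  rfl

theorem poly_dst : Poly dst := Poly.optGetD poly_unbits (NPC.Poly.const _)

/-- what the outer algorithm does next -/
def outer (M : Alg) (x : List Bool) (t : List Bool × List Bool) : List Bool :=
  M.D (pairBits x t.1)

/-- what the inner algorithm does next -/
def inner (M : Alg) (N : SAlg) (x : List Bool) (t : List Bool × List Bool) : List Bool :=
  N.act (pairBits (outer M x t).tail t.2)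

/-- what the new algorithm does next, in terms of the decoded memory -/
def eA (M : Alg) (N : SAlg) (x : List Bool) (t : List Bool × List Bool) : List Bool :=
  if M.p.eval x.length ≤ t.1.length then [true]
  else if outer M x t = [] then [true]
  else if (outer M x t).head? = some true then outer M x t
  else if (inner M N x t).head? = some true then [false]
  else inner M N x t

/-- the new memory, in terms of the decoded memory -/
def eN (M : Alg) (N : SAlg) (x : List Bool) (b : Bool) (t : List Bool × List Bool) :
    List Bool × List Bool :=
  if (inner M N x t).head? = some true then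
    (t.1 ++ [decide (inner M N x t = [true, true])], [])
  else (t.1, N.next (pairBits (outer M x t).tail (b :: t.2)))

/-- what the new algorithm does next -/
def eAct (M : Alg) (N : SAlg) (v : List Bool) : List Bool :=
  eA M N (unpair v).1 (dst (unpair v).2)

/-- the new memory -/
def eNext (M : Alg) (N : SAlg) (v : List Bool) : List Bool × List Bool :=
  eN M N (unpair v).1 ((unpair v).2.head?.getD false) (dst (unpair v).2.tail)

section

attribute [local fun_prop] poly_pairBits

attribute [local irreducible] unpair dst

theorem poly_outer (M : Alg) :
    Poly (fun p : List Bool × List Bool × List Bool => outer M p.1 p.2) := by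
  have h := poly_of_polyTime M.poly
  unfold outer
  fun_prop

theorem poly_inner (M : Alg) (N : SAlg) :
    Poly (fun p : List Bool × List Bool × List Bool => inner M N p.1 p.2) := by
  have h := poly_of_polyTime N.act_poly
  have h' := poly_outer M
  unfold inner
  fun_prop

theorem poly_eA (M : Alg) (N : SAlg) :
    Poly (fun p : List Bool × List Bool × List Bool => eA M N p.1 p.2) := by
  have h1 := poly_outer M
  have h2 := poly_inner M N
  have h3 : Poly (fun p : List Bool × List Bool × List Bool => M.p.eval p.1.length) :=
    (UPoly.eval (UPoly.length (Poly.fst Poly.id)) M.p).toPoly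
  unfold eA
  fun_prop

theorem poly_eN (M : Alg) (N : SAlg) :
    Poly (fun p : (List Bool × Bool) × List Bool × List Bool => eN M N p.1.1 p.1.2 p.2) := by
  have h1 : Poly (fun p : (List Bool × Bool) × List Bool × List Bool => outer M p.1.1 p.2) :=
    (poly_outer M).comp (f := fun p : (List Bool × Bool) × List Bool × List Bool =>
      (p.1.1, p.2)) (by fun_prop)
  have h2 : Poly (fun p : (List Bool × Bool) × List Bool × List Bool => inner M N p.1.1 p.2) :=
    (poly_inner M N).comp (f := fun p : (List Bool × Bool) × List Bool × List Bool =>
      (p.1.1, p.2)) (by fun_prop)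
  have h4 := poly_of_polyTime N.next_poly
  unfold eN
  fun_prop

theorem poly_eAct (M : Alg) (N : SAlg) : Poly (eAct M N) := by
  have h1 := poly_eA M N
  have h2 := poly_unpair
  have h3 := poly_dst
  exact h1.comp (f := fun v : List Bool => ((unpair v).1, dst (unpair v).2)) (by fun_prop)

theorem poly_eNext (M : Alg) (N : SAlg) : Poly (eNext M N) := by
  have h1 := poly_eN M N
  have h2 := poly_unpair
  have h3 := poly_dst
  exact h1.comp (f := fun v : List Bool =>
    (((unpair v).1, (unpair v).2.head?.getD false), dst (unpair v).2.tail)) (by fun_prop)

end

theorem eAct_pair (M : Alg) (N : SAlg) (x s : List Bool) :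
    eAct M N (pairBits x s) = eA M N x (dst s) := by
  unfold eAct
  rw [unpair_pairBits]

theorem eNext_pair (M : Alg) (N : SAlg) (x s : List Bool) (b : Bool) :
    eNext M N (pairBits x (b :: s)) = eN M N x b (dst s) := by
  unfold eNext
  rw [unpair_pairBits]
  rfl

/-- **Polynomial time with an oracle in `PSPACE`.** -/
theorem isPSPACE_of_isP {A X : Oracle} {L : Set (List Bool)}
    (hX : IsPSPACE A {y | X y = true}) (hL : IsP X L) : IsPSPACE A L := by
  obtain ⟨N, p, hN⟩ := hX
  obtain ⟨V, ⟨M, hM⟩, hV⟩ := hL
  obtain ⟨q, hq⟩ := (poly_of_polyTime M.poly).sz_le
  have hqb : ∀ y, (M.D y).length ≤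
      (q.comp (Polynomial.C 4 * Polynomial.X + Polynomial.C 1)).eval y.length := by
    intro y
    have h3 := length_lt_sz (M.D y)
    have h4 := hq y
    rw [Polynomial.eval_comp]
    refine h3.le.trans (h4.trans (eval_mono _ ?_))
    have h5 := sz_listBool_le y
    simpa using h5
  let S : SAlg := ⟨eAct M N, polyTime_of_poly_list (poly_eAct M N),
    fun v => bits (eNext M N v), polyTime_bits (poly_eNext M N)⟩
  refine ⟨S, Polynomial.C 4 * M.p + Polynomial.C 1 + (Polynomial.C 4 * p.comp
    ((q.comp (Polynomial.C 4 * Polynomial.X + Polynomial.C 1)).comp
      (Polynomial.C 2 * Polynomial.X + Polynomial.C 1 + M.p)) + Polynomial.C 1) +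
      Polynomial.C 1, fun x => ?_⟩
  have hact : ∀ s, S.act (pairBits x s) = eA M N x (dst s) := fun s => eAct_pair M N x s
  have hnext : ∀ b s, S.next (pairBits x (b :: s)) = bits (eN M N x b (dst s)) := fun b s => by
    show bits (eNext M N (pairBits x (b :: s))) = _
    rw [eNext_pair]
  -- the invariant
  have inv : ∀ s, S.Reach A x s → (dst s).1.length ≤ M.p.eval x.length ∧
      N.Reach A (outer M x (dst s)).tail (dst s).2 ∧ (s = [] ∨ s = bits (dst s)) := by
    intro s hs
    induction hs with
    | start =>
        rw [dst_nil]
        exact ⟨Nat.zero_le _, SAlg.Reach.start, Or.inl rfl⟩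
    | @step s r hs hr ih =>
        obtain ⟨h1, h2, h3⟩ := ih
        rw [hact] at hr
        rw [hnext, dst_bits]
        unfold eA at hr
        unfold eN
        by_cases c0 : M.p.eval x.length ≤ (dst s).1.length
        · rw [if_pos c0] at hr
          simp at hr
        rw [if_neg c0] at hr
        by_cases c1 : outer M x (dst s) = []
        · rw [if_pos c1] at hr
          simp at hr
        rw [if_neg c1] at hr
        by_cases c2 : (outer M x (dst s)).head? = some true
        · rw [if_pos c2] at hr
          rw [hr] at c2
          simp at c2
        rw [if_neg c2] at hr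
        by_cases c3 : (inner M N x (dst s)).head? = some true
        · rw [if_pos c3]
          refine ⟨?_, SAlg.Reach.start, Or.inr rfl⟩
          simp only [List.length_append, List.length_singleton]
          omega
        · rw [if_neg c3] at hr ⊢
          exact ⟨h1, SAlg.Reach.step h2 hr, Or.inr rfl⟩
  -- simulation of the inner algorithm
  have sim : ∀ a s, S.Reach A x s → dst s = (a, []) → a.length < M.p.eval x.length → ∀ r,
      M.D (pairBits x a) = false :: r → ∀ t, N.Reach A r t →
      ∃ s', S.Reach A x s' ∧ dst s' = (a, t) := by
    intro a s hs hd ha r hr t ht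
    induction ht with
    | start => exact ⟨s, hs, hd⟩
    | @step t r' ht hr' ih =>
        obtain ⟨s', h1, h2⟩ := ih
        have hout : outer M x (a, t) = false :: r := hr
        have hin : inner M N x (a, t) = false :: r' := by
          unfold inner
          rw [hout]
          exact hr'
        have h3 : S.act (pairBits x s') = false :: r' := by
          rw [hact, h2]
          unfold eA
          rw [if_neg (by simpa using ha), hout, hin]
          simp
        have h4 := SAlg.Reach.step h1 h3
        refine ⟨_, h4, ?_⟩
        rw [hnext, dst_bits, h2]
        unfold eN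
        rw [hin, hout]
        simp
  -- the next answer
  have adv : ∀ a s, S.Reach A x s → dst s = (a, []) → a.length < M.p.eval x.length → ∀ r,
      M.D (pairBits x a) = false :: r → ∃ s', S.Reach A x s' ∧ dst s' = (a ++ [X r], []) := by
    intro a s hs hd ha r hr
    obtain ⟨_, t, z, h2, h3, h4⟩ := hN r
    obtain ⟨s', h5, h6⟩ := sim a s hs hd ha r hr t h2
    have hout : outer M x (a, t) = false :: r := hr
    have hin : inner M N x (a, t) = true :: z := by
      unfold inner
      rw [hout]
      exact h3
    have h7 : S.act (pairBits x s') = false :: [] := by
      rw [hact, h6]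
      unfold eA
      rw [if_neg (by simpa using ha), hout, hin]
      simp
    have h8 := SAlg.Reach.step h5 h7
    refine ⟨_, h8, ?_⟩
    rw [hnext, dst_bits, h6]
    unfold eN
    rw [hin, if_pos (by simp)]
    have h9 : decide ((true :: z : List Bool) = [true, true]) = X r := by
      have h10 : X r = true ↔ z = [true] := h4
      by_cases hz : z = [true]
      · rw [h10.2 hz, hz]
        simp
      · have h11 : X r = false := by
          rw [← Bool.not_eq_true]
          exact fun h => hz (h10.1 h)
        rw [h11]
        simp [hz]
    rw [h9]
  have main : ∀ (k : ℕ) (a : List Bool) (v : List Bool), a.length + k = M.p.eval x.length →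
      (∃ s, S.Reach A x s ∧ dst s = (a, [])) → M.run X x k a = some v →
      ∃ s, S.Reach A x s ∧ S.act (pairBits x s) = true :: v := by
    intro k
    induction k with
    | zero =>
        intro a v _ _ h
        simp [Alg.run] at h
    | succ k ih =>
        intro a v hk hs h
        obtain ⟨s, hs, hd⟩ := hs
        have ha : a.length < M.p.eval x.length := by omega
        rcases hD : M.D (pairBits x a) with _ | ⟨c, r⟩
        · simp only [Alg.run, hD, Option.some.injEq] at h
          refine ⟨s, hs, ?_⟩
          have hout : outer M x (a, []) = [] := hD
          rw [hact, hd]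
          unfold eA
          rw [if_neg (by simpa using ha), if_pos hout, ← h]
        · cases c with
          | true =>
              simp only [Alg.run, hD, Option.some.injEq] at h
              refine ⟨s, hs, ?_⟩
              have hout : outer M x (a, []) = true :: r := hD
              rw [hact, hd]
              unfold eA
              rw [if_neg (by simpa using ha), hout, h]
              simp
          | false =>
              simp only [Alg.run, hD] at h
              exact ih (a ++ [X r]) v (by simp; omega) (adv a s hs hd ha r hD) h
  refine ⟨fun s hs => ?_, ?_⟩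
  · obtain ⟨h1, h2, h3⟩ := inv s hs
    rcases h3 with h3 | h3
    · rw [h3]
      simp
    · rw [h3, bits_length]
      generalize dst s = t at h1 h2
      obtain ⟨a, t⟩ := t
      rw [sz_pair]
      have h1' : a.length ≤ M.p.eval x.length := h1
      have e1 := sz_listBool_le a
      have e2 := sz_listBool_le t
      have e3 := (hN (outer M x (a, t)).tail).1 t h2
      have e4 : (outer M x (a, t)).tail.length ≤
          ((q.comp (Polynomial.C 4 * Polynomial.X + Polynomial.C 1)).comp
            (Polynomial.C 2 * Polynomial.X + Polynomial.C 1 + M.p)).eval x.length := by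
        rw [Polynomial.eval_comp (p := q.comp (Polynomial.C 4 * Polynomial.X + Polynomial.C 1))]
        refine le_trans ?_ ((hqb (pairBits x a)).trans (eval_mono _ ?_))
        · rw [List.length_tail]
          exact Nat.sub_le _ _
        · rw [length_pairBits]
          simp only [Polynomial.eval_add, Polynomial.eval_mul, Polynomial.eval_C,
            Polynomial.eval_X]
          omega
      have e5 := eval_mono p e4
      rw [Polynomial.eval_add, Polynomial.eval_add, Polynomial.eval_add, Polynomial.eval_add,
        Polynomial.eval_mul, Polynomial.eval_mul, Polynomial.eval_comp (p := p)]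
      simp only [Polynomial.eval_C]
      omega
  · obtain ⟨s, h1, h2⟩ := main (M.p.eval x.length) [] (V x) (by simp)
      ⟨[], SAlg.Reach.start, dst_nil⟩ (hM x)
    exact ⟨s, V x, h1, h2, hV x⟩

/-- `P^NP ⊆ PSPACE` -/
theorem task : Pool.Agent.W886.CS.S_NPS := by
  intro A L h
  obtain ⟨X, hX, hL⟩ := h
  exact isPSPACE_of_isP hX.isPSPACE hL

end Pool.Agent.W975.CS
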